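import Pool.Agent.R882.KF

/-!
# Sweeping out by elliptic curves: images of hypersurfaces fibred by curves of arbitrary genus

Let `V` be a component of the hypersurface `f = 0` in the torus with the coordinates
`t 1, ..., t n, x, y`, where the Laurent polynomial `f` is nondegenerate in the sense of Khovanskii.
Suppose that `x` and `y` appear in `f` only with exponents `(i, j)` in the trapezoid `T` given by
`0 ≤ j ≤ b`, `0 ≤ i ≤ a + s (b - j)`; the Newton polytope of `f` is arbitrary otherwise. Suppose that
`t 1, ..., t n, x` are algebraically independent on `V`, and that the generic fibres of the map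
`V ⇢ V' = (ℙ ^ 1) ^ n` given by `t` are irreducible. These fibres are curves on a rational ruled
surface (or plane curves: `a = 0`, `s = 1`); they may have any genus. Suppose that for all lattice
points `(i, j)` in the interior of `T` there is a vector `u i j` over `(i, j)` such that `u i j` and
the `u i j + M e l`, where `e 1, ..., e n` are the unit vectors of the coordinates `t`, are in the
Fine interior of the Newton polytope of `f`. For example, `V` may be a general hypersurface of
multidegree `(e 1, ..., e n, a, b)` in `(ℙ ^ 1) ^ (n + 2)` with `e l ≥ M + 2`, or of multidegree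
`(e 1, ..., e n, b)` in `(ℙ ^ 1) ^ n × ℙ ^ 2`.

Let `V ⇢ W` be a dominant rational map of finite degree `r`. The map is arbitrary; it is not assumed
to be related to the fibration. Let `W'` be the image of `V` in `W × V'`, and let `m ≤ r` be the
degree of `W' → W`.

* If `m ≤ M + 1` then `p_g(W) = 0` if and only if `κ(W) = -∞`, if and only if `K_W` is not
  pseudo-effective, if and only if `W` is uniruled.
* If `2 m ≤ M + 1` then `W` is uniruled or `κ(W) ≥ n = dim W - 1`.

So, if `2 m ≤ M + 1` and `X` is a projective manifold birational to `W` with `0 ≤ κ(X) ≤ dim X - 1`, then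
`κ(X) = dim X - 1`, and the general fibres of the Iitaka fibration are elliptic curves: `X` is swept out by
abelian varieties of dimension one (this standard step is not formalised here).

Proof. Let `Ω i j = x ^ (u i j) Res` be the canonical forms on `V` given by the residue, for the
`(i, j)` in the interior of `T`. Their restrictions to the geometric generic fibre `C` of `V ⇢ V'`
are the `x ^ i y ^ j dx / (x y F_y)`, up to constants, where `F` is the equation of `C`. They generate
the regular differentials of `C`: the formula of Euler gives `h = ∑ j, Tr (h γ j / F_y) y ^ j`, where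
`∑ j, γ j Y ^ j = F(Y) / (Y - y)`; this is also true if `F` is reducible. If `h dx / F_y` is regular
then the poles of the differentials `Tr (h γ j / F_y) dx` on the line are bounded by those of the
`γ j`, which can be estimated from both ends of the polynomial `F(Y)`. Let `C'` be the image of `C` in
the geometric generic fibre of `W' → V'`. If all the `Ω i j` have trace zero on `W'` then all regular
differentials of `C` have trace zero on `C'` (the fibres of `V ⇢ V'` are irreducible), so `C'` is
rational, and `W'` and `W` are uniruled. If the trace of some `Ω i j` is not zero then the traces on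
`W` of the forms `A(t) Ω i j`, where `A` is a polynomial of degree at most `M`, show that
`p_g(W) > 0` and `κ(W) ≥ n`, as in `MP_5ff3c6_ag.ImagesOfIntersections` of this team.
-/

set_option autoImplicit false
set_option linter.overlappingInstances false
set_option maxHeartbeats 4000000
set_option synthInstance.maxHeartbeats 400000

open FF Module Pool.Agent Pool.Agent.W602.GT Pool.Agent.R885
open Pool.Agent.W619.PQ (IsUniruled)

namespace Pool.Agent.Results.MP_501976_ag.CurveFibrations

/-- The Laurent polynomial `f` is nondegenerate: the initial parts `ini v f` have a nonzero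
logarithmic gradient at all their zeros in the torus. -/
def Nondegenerate {r : ℕ} (f : (Fin r → ℤ) →₀ ℂ) : Prop :=
  ∀ v : Fin r → ℤ, ∀ c : Fin r → ℂ, (∀ i, c i ≠ 0) → ev c (ini v f) = 0 →
    ∃ i, gr c (ini v f) i ≠ 0

/-- The integral vector `u` is in the Fine interior of the Newton polytope of `f`. -/
def InFine {r : ℕ} (f : (Fin r → ℤ) →₀ ℂ) (u : Fin r → ℤ) : Prop :=
  ∀ v : Fin r → ℤ, v ≠ 0 → 1 + mn v f ≤ u ⬝ᵥ v

/-- The exponents `(i, j)` of the last two variables in `f` are in the trapezoid `0 ≤ j ≤ b`,
`0 ≤ i ≤ a + s (b - j)`. -/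
def InTrapezoid {n : ℕ} (f : (Fin (n + 2) → ℤ) →₀ ℂ) (a s b : ℕ) : Prop :=
  ∀ m ∈ f.support, 0 ≤ m (Fin.last n).castSucc ∧
    m (Fin.last n).castSucc ≤ a + s * (b - m (Fin.last (n + 1))) ∧
    0 ≤ m (Fin.last (n + 1)) ∧ m (Fin.last (n + 1)) ≤ b

/-- The lattice point `(i, j)` is in the interior of the trapezoid. -/
def Interior (a s b i j : ℕ) : Prop := 1 ≤ i ∧ 1 ≤ j ∧ j + 1 ≤ b ∧ i + 1 ≤ a + s * (b - j)

/-- The geometric genus of the variety with the function field `L` is zero: the only canonical form
which is regular at all prime divisors is `0`. -/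
def GenusZero (L : Type) [Field L] [Algebra ℂ L] (n : ℕ) : Prop :=
  ∀ ω : (Fin n → Derivation ℂ L L) → L, IsPluri 1 ω →
    (∀ P : Place ℂ L, Divisorial n P → RegAt P ω) → ∀ D, ω D = 0

/-- **Images of fibrations by curves.** Let `V` be a component of the zero set of a nondegenerate
Laurent polynomial `f` in the variables `t l`, `x`, `y`, with function field `K` and generic point
`z`, and let the exponents of `x`, `y` be in a trapezoid. Suppose that the `t l` and `x` are
algebraically independent on `V`, that the generic fibres of the map `V ⇢ V'` given by the `t l` are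
irreducible, and that for all lattice points `(i, j)` in the interior of the trapezoid there is a
vector `u i j` over it such that `u i j` and the `u i j + M e l` are in the Fine interior. Let
`V ⇢ W` be a dominant rational map of finite degree, `L` the function field of `W`, and `m` the degree
over `W` of the image of `V` in `W × V'`.
If `m ≤ M + 1` then `p_g(W) = 0` if and only if `κ(W) = -∞`, if and only if `K_W` is not
pseudo-effective, if and only if `W` is uniruled. If `2 m ≤ M + 1` then `W` is uniruled or
`κ(W) ≥ n = dim W - 1`. -/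
theorem result {n a s b M : ℕ} (hM : 1 ≤ M) {f : (Fin (n + 2) → ℤ) →₀ ℂ}
    (hf : Nondegenerate f) (hT : InTrapezoid f a s b) {K : Type} [Field K] [Algebra ℂ K]
    {z : Fin (n + 2) → K} (hz : ∀ i, z i ≠ 0) (hfz : ev z f = 0)
    (hgen : IntermediateField.adjoin ℂ (Set.range z) = ⊤) (hK : Algebra.trdeg ℂ K = (n + 1 : ℕ))
    (hind : AlgebraicIndependent ℂ fun i : Fin (n + 1) => z i.castSucc)
    {t : Fin n → K} (ht : ∀ l, t l = z l.castSucc.castSucc)
    (hcl : ∀ g : K, IsAlgebraic (IntermediateField.adjoin ℂ (Set.range t)) g →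
      g ∈ IntermediateField.adjoin ℂ (Set.range t))
    {u : ℕ → ℕ → Fin (n + 2) → ℤ}
    (hu : ∀ i j, Interior a s b i j → u i j (Fin.last n).castSucc = i ∧
      u i j (Fin.last (n + 1)) = j ∧ InFine f (u i j) ∧
      ∀ l : Fin n, InFine f (u i j + (M : ℤ) • Pi.single l.castSucc.castSucc 1))
    (L : Type) [Field L] [Algebra ℂ L] [Algebra L K] [IsScalarTower ℂ L K]
    [FiniteDimensional L K] :
    (Module.finrank L (IntermediateField.adjoin L (Set.range t)) ≤ M + 1 →
      [GenusZero L (n + 1), ¬ KodGe ℂ L (n + 1) (fun _ => False) 0,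
        ¬ Psef ℂ L (n + 1) (fun _ => False), IsUniruled ℂ L (n + 1)].TFAE) ∧
    (2 * Module.finrank L (IntermediateField.adjoin L (Set.range t)) ≤ M + 1 →
      IsUniruled ℂ L (n + 1) ∨ KodGe ℂ L (n + 1) (fun _ => False) n) := by
  classical
  obtain ⟨f', hf'⟩ : ∃ f' : Fin 1 → (Fin (n + 1 + 1) → ℤ) →₀ ℂ, f' = fun _ => f := ⟨_, rfl⟩
  have hess : Algebra.EssFiniteType ℂ K := by
    rw [← IntermediateField.fg_top_iff, ← hgen]
    exact ⟨Finset.univ.image z, by rw [Finset.coe_image, Finset.coe_univ, Set.image_univ]⟩
  have hL : Algebra.trdeg ℂ L = (n + 1 : ℕ) := Pool.Agent.Y184.NT.trdeg_below (K := K) hK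
  have hessL : Algebra.EssFiniteType ℂ L := Pool.Agent.TH466.QG.ess_below (K := K)
  have hnd : ∀ v, NonDeg ℂ f' v := by
    intro v c hc hev
    subst hf'
    obtain ⟨i, hi⟩ := hf v c hc (hev 0)
    exact LinearIndependent.of_subsingleton (0 : Fin 1) fun h => hi (congrFun h i)
  have hevf : ∀ l, ev z (f' l) = 0 := fun l => by rw [hf']; exact hfz
  have hfine : ∀ w : Fin (n + 1 + 1) → ℤ, InFine f w → Pool.Agent.R882.LT.InFine f' w := by
    intro w hw v hv
    rw [Fin.sum_univ_one, hf']
    exact hw v hv
  obtain ⟨C0, h0, hreg0, hne⟩ := Pool.Agent.R882.LT.exists_res hK hz hgen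
    (Pool.Agent.R882.KR.ee n) hevf hnd
  have htE : t = fun l : Fin n => z l.castSucc.castSucc := funext ht
  have hd' : Algebra.trdeg ℂ (IntermediateField.adjoin ℂ (Set.range t)) = (n : ℕ) := by
    rw [htE]
    exact Pool.Agent.R882.KR.trdeg_first hind
  have hX := Pool.Agent.R882.KR.not_alg_first hind
  rw [← htE] at hX
  -- the forms
  obtain ⟨ω, hωdef⟩ : ∃ ω : {p : ℕ × ℕ // Pool.Agent.R882.KR.Inner a s b p.1 p.2} →
      (Fin (n + 1) → Derivation ℂ K K) → K, ω = fun p D => R885.mono z (u p.1.1 p.1.2) *
        Om (Pool.Agent.R882.KR.ee n) z f' C0 D := ⟨_, rfl⟩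
  have hω : ∀ p, Pool.Agent.R882.LT.IsTwisted (n + 1) M t (ω p) := by
    intro p
    obtain ⟨-, -, hu1, hu2⟩ := hu p.1.1 p.1.2 p.2
    rw [hωdef]
    refine ⟨?_, ?_⟩
    · intro B D
      have h1 := om_pluri (Pool.Agent.R882.KR.ee n) z f' C0 1 B D
      change Om (Pool.Agent.R882.KR.ee n) z f' C0 (fun i => ∑ j, B i j • D j) ^ 1 =
        B.det ^ 1 * Om (Pool.Agent.R882.KR.ee n) z f' C0 D ^ 1 at h1
      change R885.mono z _ * Om (Pool.Agent.R882.KR.ee n) z f' C0 (fun i => ∑ j, B i j • D j) =
        B.det ^ 1 * (R885.mono z _ * Om (Pool.Agent.R882.KR.ee n) z f' C0 D)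
      rw [pow_one, pow_one, pow_one] at h1
      rw [h1]
      ring
    · intro c hc P _ D hD
      have h1 := hreg0 _ (Pool.Agent.R882.LT.inFine_comb (w := fun l : Fin n =>
        Pi.single l.castSucc.castSucc 1) hM (hfine _ hu1) (fun l => hfine _ (hu2 l)) c hc) P D hD
      change P.Reg ((∏ j, t j ^ c j) * (R885.mono z (u p.1.1 p.1.2) *
        Om (Pool.Agent.R882.KR.ee n) z f' C0 D))
      have h2 : ∏ j, t j ^ c j = R885.mono z (∑ l : Fin n, (c l : ℤ) •
          (Pi.single l.castSucc.castSucc 1 : Fin (n + 1 + 1) → ℤ)) := by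
        rw [← Pool.Agent.R882.LT.mono_comb hz]
        refine Finset.prod_congr rfl fun l _ => ?_
        rw [R885.mono_single, ht]
      rw [h2, ← mul_assoc, mul_comm (R885.mono z _) (R885.mono z (u p.1.1 p.1.2)),
        ← R885.mono_add hz]
      exact h1
  have hregω : ∀ p (P : Place ℂ K), Divisorial (n + 1) P → RegAt P (ω p) := by
    intro p P hP D hD
    have h1 := (hω p).2 0 (by simp) P hP D hD
    simpa using h1
  have hspan : Pool.Agent.R882.GL.SpanFib (IntermediateField.adjoin ℂ (Set.range t)) ω := by
    rw [hωdef]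
    refine Pool.Agent.R882.KR.span_curve hz hgen hevf h0 hne (a := a) (s := s) (b := b) ?_
      (Pool.Agent.R882.KR.basis_first hK hind) (fun l => ?_) hX fun i j hij => ?_
    · rw [hf']
      exact hT
    · rw [← ht]
      exact IntermediateField.subset_adjoin _ _ ⟨l, rfl⟩
    · obtain ⟨h1, h2, -, -⟩ := hu i j hij
      exact ⟨h1, h2⟩
  -- the image in `W × V'`
  have hle : IntermediateField.adjoin ℂ (Set.range t) ≤
      (IntermediateField.adjoin L (Set.range t)).restrictScalars ℂ := by
    rw [IntermediateField.adjoin_le_iff]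
    exact IntermediateField.subset_adjoin L _
  obtain ⟨E', hE'⟩ : ∃ E' : IntermediateField (IntermediateField.adjoin ℂ (Set.range t)) K,
      E' = IntermediateField.extendScalars hle := ⟨_, rfl⟩
  have hE'r : E'.restrictScalars ℂ =
      (IntermediateField.adjoin L (Set.range t)).restrictScalars ℂ := by
    rw [hE']
    exact IntermediateField.extendScalars_restrictScalars hle
  have hfinE : FiniteDimensional E' K := by
    have h1 : FiniteDimensional (IntermediateField.adjoin L (Set.range t)) K := inferInstance
    rw [hE']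
    exact h1
  have hfinJ := Pool.Agent.R882.KR.finite_inner a s b
  have huni : (∀ p, ¬ Pool.Agent.R882.LT.TraceNe (ω p)
      ((IntermediateField.adjoin L (Set.range t)).restrictScalars ℂ)) →
      IsUniruled ℂ L (n + 1) := by
    intro h
    have h1 := Pool.Agent.R882.GL.dich hK _ hd' hcl E' ω (fun p => (hω p).1) hregω hspan
      (fun p => by rw [hE'r]; exact h p)
    rw [hE'r] at h1
    obtain ⟨C, i1, i2, hC, htr, ⟨ψ⟩⟩ := h1
    let φ : L →ₐ[ℂ] ((IntermediateField.adjoin L (Set.range t)).restrictScalars ℂ :
        IntermediateField ℂ K) :=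
      { toFun := fun g => ⟨algebraMap L K g,
          (IntermediateField.adjoin L (Set.range t)).algebraMap_mem g⟩
        map_one' := Subtype.ext (map_one _)
        map_mul' := fun a b => Subtype.ext (map_mul _ _ _)
        map_zero' := Subtype.ext (map_zero _)
        map_add' := fun a b => Subtype.ext (map_add _ _ _)
        commutes' := fun c => Subtype.ext (IsScalarTower.algebraMap_apply ℂ L K c).symm }
    exact ⟨C, i1, i2, hC, htr, ⟨ψ.comp φ⟩⟩
  refine ⟨fun hs => ?_, fun hs => ?_⟩
  · tfae_have 1 → 4 := by
      intro hg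
      refine huni fun p htr => ?_
      obtain ⟨η, hη, hηr, D, hD⟩ :=
        (Pool.Agent.R882.LT.core_img (L := L) hK hd' rfl (hω p) htr).1 hs
      exact hD (hg η hη hηr D)
    tfae_have 4 → 3 := fun h h' =>
      (Pool.Agent.W619.Y.uniruled_neg (n + 1) hL h).1 ((Pool.Agent.TH466.QG.psef_iff (n + 1)).1 h')
    tfae_have 3 → 2 := fun h h' => h (psef_of_kodGe h')
    tfae_have 2 → 1 := by
      intro h ω hω hreg D
      by_contra hne
      refine h ⟨1, one_pos, fun _ => ω, fun _ => ⟨hω, fun P hP D' hD' => ?_,
        fun P hP _ => hreg P hP⟩, D, hne, ?_⟩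
      · exact hreg P hP D' fun i => Pool.Agent.TH466.QG.derReg_of_log (hD' i)
      · exact algebraicIndependent_empty_type
    tfae_finish
  · by_cases htr : ∃ p, Pool.Agent.R882.LT.TraceNe (ω p)
      ((IntermediateField.adjoin L (Set.range t)).restrictScalars ℂ)
    · right
      obtain ⟨p, htr⟩ := htr
      exact Pool.Agent.R882.KR.kodGe_of_tr
        ((Pool.Agent.R882.LT.core_img (L := L) hK hd' rfl (hω p) htr).2 hs)
    · push Not at htr
      exact Or.inl (huni htr)

end Pool.Agent.Results.MP_501976_ag.CurveFibrations
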