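import Pool.Agent.R882.TEll2

/-!
# Sweeping out by elliptic curves: images of complete intersections fibred by curves of genus one

Let `V` be a component, of dimension `n + 1`, of the set of common zeros in the torus of a system `f`
of Laurent polynomials which is nondegenerate in the sense of Khovanskii, with arbitrary Newton
polytopes. Let `F = FineInt f` be the Fine interior of their Minkowski sum, and suppose that the image
of `V` in the torus whose characters are the integral vectors parallel to `F` has dimension `n`. Let
`u`, `w 1, ..., w N` be integral vectors such that `u` and the `u + M w j` are in `F`, and such that the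
map `V ⇢ V'` given by the monomials `t j = x ^ w j` has an image `V'` of dimension `n` and irreducible
generic fibres. These fibres are curves of genus one, and `V ⇢ V'` is the Iitaka fibration of `V`.
For example, `V` may be a general hypersurface of multidegree `(2, 2, e 1, ..., e n)` in a product of
projective lines, `e i ≥ M + 2`; or a general complete intersection with `K_V = O(0, m)`, `m ≥ M`, in
a product of projective spaces.

Let `V ⇢ W` be a dominant rational map of finite degree `r`; `W` is not assumed to be a quotient by a
group or to be related to the fibration. Let `W'` be the image of `V` in `W × V'` and let `s ≤ r` be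
the degree of `W' → W`.

* If `s ≤ M + 1` then `p_g(W) = 0` if and only if `κ(W) = -∞`, if and only if `K_W` is not
  pseudo-effective, if and only if `W` is uniruled.
* If `2 s ≤ M + 1` then `W` is uniruled or `κ(W) = ν(W) = n`, for all projective varieties `W` with
  canonical singularities in the birational class.

So, if `2 s ≤ M + 1` and `X` is a projective manifold birational to `W` with `0 ≤ κ(X) ≤ dim X - 1`, then
`κ(X) = dim X - 1`, and the general fibres of the Iitaka fibration are elliptic curves: `X` is swept out by
abelian varieties of dimension one (this standard step is not formalised here). The numerical dimension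
`ν` of this file is the growth of `h⁰(m K_W + A)`.

Proof. `W' → V'` is a fibration by curves. Let `ω = x ^ u Res` be the canonical form on `V` given by
the residue; its restriction to the geometric generic fibre `C` of `V ⇢ V'` generates the regular
differentials of `C`, because `ν(C) = 0` (`fibre_zero` of `Pool.Agent.R885`). If the trace of `ω` on
`W'` is not zero then the traces on `W` of the forms `A(t) ω`, where `A` is a polynomial of degree at
most `M`, give a nonzero canonical form on `W`, and `κ(W) ≥ n`, as in `MP_5ff3c6_ag.ImagesOfIntersections`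
of this team; `ν(W) ≤ ν(V) = n`. If the trace of `ω` on `W'` is zero, let `C'` be the image of `C` in
the geometric generic fibre of `W' → V'`, that is, the geometric generic fibre of `W'`. The fibres of
`V ⇢ V'` are irreducible, so the degree of `C → C'` is the degree of `V ⇢ W'` and traces can be computed
on `C` (`trace_fib`). If `C'` is not rational then it has a nonzero regular differential `η`; the
pullback of `η` to `C` is regular, so it is a multiple of `ω` with trace zero; but its trace is a
nonzero multiple of `η`. So `C'` is rational, and `W'` and `W` are uniruled.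
-/

set_option autoImplicit false
set_option linter.overlappingInstances false
set_option maxHeartbeats 4000000
set_option synthInstance.maxHeartbeats 400000

open FF Module Pool.Agent Pool.Agent.W602.GT Pool.Agent.Y172 Pool.Agent.Y191 Pool.Agent.R885
open Pool.Agent.W619.PQ (IsUniruled)

namespace Pool.Agent.Results.MP_501976_ag.EllipticImages

section

variable {K : Type} [Field K] [Algebra ℂ K]

/-- `X` is a projective variety of dimension `n` with canonical singularities; `y` is its generic
point in projective `N`-space. -/
def IsCanonicalVariety {N : ℕ} (y : Fin (N + 1) → K) (n : ℕ) : Prop :=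
  NormalModel y ∧ Algebra.trdeg ℂ K = n ∧ Canonical y n

/-- The Laurent polynomials `f l` are nondegenerate: the initial parts `ini v (f l)` have linearly
independent logarithmic gradients at all their common zeros in the torus. -/
def Nondegenerate {r q : ℕ} (f : Fin q → (Fin r → ℤ) →₀ ℂ) : Prop :=
  ∀ v : Fin r → ℤ, ∀ c : Fin r → ℂ, (∀ i, c i ≠ 0) → (∀ l, ev c (ini v (f l)) = 0) →
    LinearIndependent ℂ fun l => gr c (ini v (f l))

/-- `x` is the generic point of a subvariety, with function field `K`, of the set of common zeros
of the `f l` in the torus `(ℂ^*) ^ r`. -/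
def IsGenericPoint {r q : ℕ} (f : Fin q → (Fin r → ℤ) →₀ ℂ) (x : Fin r → K) : Prop :=
  (∀ i, x i ≠ 0) ∧ (∀ l, ev x (f l) = 0) ∧ IntermediateField.adjoin ℂ (Set.range x) = ⊤

/-- The integral vector `u` is in the Fine interior. -/
def InFine {r q : ℕ} (f : Fin q → (Fin r → ℤ) →₀ ℂ) (u : Fin r → ℤ) : Prop :=
  (fun i => (u i : ℚ)) ∈ FineInt f

end

/-- The geometric genus of the variety with the function field `L` is zero: the only canonical form
which is regular at all prime divisors is `0`. -/
def GenusZero (L : Type) [Field L] [Algebra ℂ L] (n : ℕ) : Prop :=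
  ∀ ω : (Fin n → Derivation ℂ L L) → L, IsPluri 1 ω →
    (∀ P : Place ℂ L, Divisorial n P → RegAt P ω) → ∀ D, ω D = 0

/-- `κ(W) = ν(W) = d` for all projective varieties `W` of dimension `n` with canonical singularities
and with function field `L`. The numerical dimension may be computed with any effective integral
divisor. -/
def Abundance (L : Type) [Field L] [Algebra ℂ L] (n d : ℕ) : Prop :=
  ∀ (N : ℕ) (y : Fin (N + 1) → L), IsCanonicalVariety y n →
    kodairaDim y n 0 = (d : WithBot ℕ) ∧
      ∀ A, Effective y A → Integral y A → numericalDim y n 0 A = (d : EReal)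

/-- **Images of elliptic fibrations.** Let `V` be a component, of dimension `n + 1`, of the set of
common zeros of a nondegenerate system `f`, with function field `K` and generic point `x`, and suppose
that the image of `V` in the torus of the Fine interior has dimension `n`. Let `u` and the
`u + M w j` be in the Fine interior, let `t j` be the monomial with the exponent `w j`, and suppose
that the map `V ⇢ V'` given by `t` has an image of dimension `n` and irreducible generic fibres: the
field `ℂ(t)` is algebraically closed in `K`. Let `V ⇢ W` be a dominant rational map of finite degree,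
`L` the function field of `W`, and `s` the degree over `W` of the image of `V` in `W × V'`, whose
function field is `L(t)`.
If `s ≤ M + 1` then `p_g(W) = 0` if and only if `κ(W) = -∞`, if and only if `K_W` is not
pseudo-effective, if and only if `W` is uniruled. If `2 s ≤ M + 1` then `W` is uniruled or
`κ(W) = ν(W) = n`. -/
theorem result {n q N M : ℕ} (hM : 1 ≤ M) {f : Fin q → (Fin (n + 1 + q) → ℤ) →₀ ℂ}
    (hf : Nondegenerate f) {K : Type} [Field K] [Algebra ℂ K] {x : Fin (n + 1 + q) → K}
    (hx : IsGenericPoint f x) (hK : Algebra.trdeg ℂ K = (n + 1 : ℕ))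
    (hd : Algebra.trdeg ℂ (IntermediateField.adjoin ℂ {z : K | ∃ v ∈ dirs f, z = R885.mono x v}) =
      (n : ℕ)) {u : Fin (n + 1 + q) → ℤ} {w : Fin N → Fin (n + 1 + q) → ℤ} (hu : InFine f u)
    (hw : ∀ j, InFine f (u + (M : ℤ) • w j)) {t : Fin N → K}
    (ht : ∀ j, t j = R885.mono x (w j))
    (hd' : Algebra.trdeg ℂ (IntermediateField.adjoin ℂ (Set.range t)) = (n : ℕ))
    (hcl : ∀ z : K, IsAlgebraic (IntermediateField.adjoin ℂ (Set.range t)) z →
      z ∈ IntermediateField.adjoin ℂ (Set.range t))
    (L : Type) [Field L] [Algebra ℂ L] [Algebra L K] [IsScalarTower ℂ L K]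
    [FiniteDimensional L K] :
    (Module.finrank L (IntermediateField.adjoin L (Set.range t)) ≤ M + 1 →
      [GenusZero L (n + 1), ¬ KodGe ℂ L (n + 1) (fun _ => False) 0,
        ¬ Psef ℂ L (n + 1) (fun _ => False), IsUniruled ℂ L (n + 1)].TFAE) ∧
    (2 * Module.finrank L (IntermediateField.adjoin L (Set.range t)) ≤ M + 1 →
      IsUniruled ℂ L (n + 1) ∨ Abundance L (n + 1) n) := by
  classical
  have hess : Algebra.EssFiniteType ℂ K := by
    rw [← IntermediateField.fg_top_iff, ← hx.2.2]
    exact ⟨Finset.univ.image x, by rw [Finset.coe_image, Finset.coe_univ, Set.image_univ]⟩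
  have hL : Algebra.trdeg ℂ L = (n + 1 : ℕ) := Pool.Agent.Y184.NT.trdeg_below (K := K) hK
  have hessL : Algebra.EssFiniteType ℂ L := Pool.Agent.TH466.QG.ess_below (K := K)
  have hF : (FineInt f).Nonempty := ⟨_, hu⟩
  have hnum := (main (Nat.succ_pos n) rfl hK hx.1 hx.2.2 hx.2.1 hf hF hd).2
  have hnumL := Pool.Agent.R882.LT.numLe_down (L := L) hK hnum
  have htE : t = fun j => R885.mono x (w j) := funext ht
  have e : Fin q ⊕ Fin (n + 1) ≃ Fin (n + 1 + q) := Fintype.equivOfCardEq (by
    rw [Fintype.card_sum, Fintype.card_fin, Fintype.card_fin, Fintype.card_fin, add_comm])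
  obtain ⟨ω, hω, hne⟩ := Pool.Agent.R882.LT.exists_twisted hK hx.1 hx.2.2 e hx.2.1
    (fun v => hf v) hM (Pool.Agent.R882.LT.inFine_of hu)
    (fun j => Pool.Agent.R882.LT.inFine_of (hw j))
  rw [← htE] at hω
  have hregω : ∀ P : Place ℂ K, Divisorial (n + 1) P → RegAt P ω := by
    intro P hP D hD
    have h1 := hω.2 0 (by simp) P hP D hD
    simpa using h1
  -- the parallel vectors
  have hBd : ∀ v ∈ dirs f, R885.mono x v ∈ IntermediateField.adjoin ℂ (Set.range t) := by
    intro v hv
    refine hcl _ (Pool.Agent.R882.GL.alg_of_trdeg hd hd' ?_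
      (IntermediateField.subset_adjoin _ _ ⟨v, hv, rfl⟩))
    rintro _ ⟨j, rfl⟩
    rw [ht]
    refine IntermediateField.subset_adjoin _ _ ⟨w j, ⟨_, hu, 1, le_rfl, ?_⟩, rfl⟩
    have h1 := Pool.Agent.R882.LT.inFine_comb (a := Pi.single j 1) hM
      (Pool.Agent.R882.LT.inFine_of hu) (fun j => Pool.Agent.R882.LT.inFine_of (hw j))
      (by simpa using hM)
    intro v' hv'
    have h2 := h1 v' hv'
    have h3 : u + ∑ j', ((Pi.single j 1 : Fin N → ℕ) j' : ℤ) • w j' = u + w j := by
      congr 1
      rw [Finset.sum_eq_single j]
      · rw [Pi.single_eq_same, Nat.cast_one, one_smul]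
      · intro b _ hb
        rw [Pi.single_eq_of_ne hb, Nat.cast_zero, zero_smul]
      · intro h
        exact absurd (Finset.mem_univ _) h
    rw [h3] at h2
    have h4 : ∑ i, ((fun i => (u i : ℚ) + (w j i : ℚ) / (1 : ℕ)) i) * (v' i : ℚ) =
        (((u + w j) ⬝ᵥ v' : ℤ) : ℚ) := by
      unfold dotProduct
      push_cast
      refine Finset.sum_congr rfl fun i _ => ?_
      rw [Pi.add_apply]
      push_cast
      ring
    rw [h4]
    have h5 : (1 + ∑ l, (mn v' (f l) : ℚ)) = ((1 + ∑ l, mn v' (f l) : ℤ) : ℚ) := by
      push_cast
      rfl
    rw [h5]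
    exact_mod_cast h2
  -- the image in `W × V'`
  have hle : IntermediateField.adjoin ℂ (Set.range t) ≤
      (IntermediateField.adjoin L (Set.range t)).restrictScalars ℂ := by
    rw [IntermediateField.adjoin_le_iff]
    exact IntermediateField.subset_adjoin L _
  obtain ⟨E', hE'⟩ : ∃ E' : IntermediateField (IntermediateField.adjoin ℂ (Set.range t)) K,
      E' = IntermediateField.extendScalars hle := ⟨_, rfl⟩
  have hE'r : E'.restrictScalars ℂ =
      (IntermediateField.adjoin L (Set.range t)).restrictScalars ℂ := by
    rw [hE']
    exact IntermediateField.extendScalars_restrictScalars hle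
  have hfinE : FiniteDimensional E' K := by
    have h1 : FiniteDimensional (IntermediateField.adjoin L (Set.range t)) K := inferInstance
    rw [hE']
    exact h1
  have huni : ¬ Pool.Agent.R882.LT.TraceNe ω
      ((IntermediateField.adjoin L (Set.range t)).restrictScalars ℂ) →
      IsUniruled ℂ L (n + 1) := by
    intro h
    have h1 := Pool.Agent.R882.GL.dich (J := Unit) hK _ hd' hcl E' (fun _ => ω) (fun _ => hω.1)
      (fun _ => hregω) (Pool.Agent.R882.GL.span_toric rfl hx.1 hx.2.2 hx.2.1 (fun v => hf v) hF hd
        hBd hne) (fun _ => by rwa [hE'r])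
    rw [hE'r] at h1
    obtain ⟨C, i1, i2, hC, htr, ⟨ψ⟩⟩ := h1
    let φ : L →ₐ[ℂ] ((IntermediateField.adjoin L (Set.range t)).restrictScalars ℂ :
        IntermediateField ℂ K) :=
      { toFun := fun z => ⟨algebraMap L K z,
          (IntermediateField.adjoin L (Set.range t)).algebraMap_mem z⟩
        map_one' := Subtype.ext (map_one _)
        map_mul' := fun a b => Subtype.ext (map_mul _ _ _)
        map_zero' := Subtype.ext (map_zero _)
        map_add' := fun a b => Subtype.ext (map_add _ _ _)
        commutes' := fun c => Subtype.ext (IsScalarTower.algebraMap_apply ℂ L K c).symm }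
    exact ⟨C, i1, i2, hC, htr, ⟨ψ.comp φ⟩⟩
  refine ⟨fun hs => ?_, fun hs => ?_⟩
  · tfae_have 1 → 4 := by
      intro hg
      refine huni fun htr => ?_
      obtain ⟨η, hη, hηr, D, hD⟩ := (Pool.Agent.R882.LT.core_img (L := L) hK hd' rfl hω htr).1 hs
      exact hD (hg η hη hηr D)
    tfae_have 4 → 3 := fun h h' =>
      (Pool.Agent.W619.Y.uniruled_neg (n + 1) hL h).1 ((Pool.Agent.TH466.QG.psef_iff (n + 1)).1 h')
    tfae_have 3 → 2 := fun h h' => h (psef_of_kodGe h')
    tfae_have 2 → 1 := by
      intro h ω hω hreg D
      by_contra hne
      refine h ⟨1, one_pos, fun _ => ω, fun _ => ⟨hω, fun P hP D' hD' => ?_,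
        fun P hP _ => hreg P hP⟩, D, hne, ?_⟩
      · exact hreg P hP D' fun i => Pool.Agent.TH466.QG.derReg_of_log (hD' i)
      · exact algebraicIndependent_empty_type
    tfae_finish
  · by_cases htr : Pool.Agent.R882.LT.TraceNe ω
      ((IntermediateField.adjoin L (Set.range t)).restrictScalars ℂ)
    · right
      intro N y hy
      exact dims_of hL hy.1 hy.2.2
        ((Pool.Agent.R882.LT.core_img (L := L) hK hd' rfl hω htr).2 hs) hnumL
    · exact Or.inl (huni htr)

end Pool.Agent.Results.MP_501976_ag.EllipticImages
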